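import Pool.Agent.TH124.KE.Chain
import Pool.Agent.TH124.KE.Few

/-!
# Long concave chains of `k`-edges
-/

set_option autoImplicit false

namespace Pool.Agent.X130.CP

open Finset Pool.Agent.W296.HL Pool.Agent.TH124.KE

variable {P : Finset (ℝ × ℝ)} {k : ℕ}

/-- the number of points to the right of `p` -/
noncomputable def rgt (P : Finset (ℝ × ℝ)) (p : ℝ × ℝ) : ℕ := #{q ∈ P | p.1 < q.1}

/-- the points with many points to their right -/
lemma rgt_count (hP : GP P) (k : ℕ) : #{p ∈ P | k + 1 ≤ rgt P p} ≤ #P - (k + 1) := by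
  have h : #{p ∈ P | k + 1 ≤ rgt P p} ≤ #(Finset.Ico (k + 1) #P) := by
    refine card_le_card_of_injOn (rgt P) ?_ ?_
    · intro p hp
      rw [mem_coe, mem_filter] at hp
      rw [mem_coe, mem_Ico]
      refine ⟨hp.2, ?_⟩
      unfold rgt
      apply card_lt_card
      rw [filter_ssubset]
      exact ⟨p, hp.1, lt_irrefl _⟩
    · have key : ∀ p ∈ P, ∀ q ∈ P, p.1 < q.1 → rgt P q < rgt P p := by
        intro p _ q hq hpq
        unfold rgt
        apply card_lt_card
        rw [ssubset_iff_of_subset]
        · exact ⟨q, mem_filter.mpr ⟨hq, hpq⟩, fun h => lt_irrefl _ (mem_filter.mp h).2⟩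
        · intro r hr
          rw [mem_filter] at hr ⊢
          exact ⟨hr.1, hpq.trans hr.2⟩
      intro p hp q hq h
      rw [mem_coe, mem_filter] at hp hq
      rcases lt_trichotomy p.1 q.1 with h1 | h1 | h1
      · exact absurd h (key p hp.1 q hq.1 h1).ne'
      · exact hP.inj p hp.1 q hq.1 h1
      · exact absurd h (key q hq.1 p hp.1 h1).ne
  rw [Nat.card_Ico] at h
  exact h

lemma sum_stp (hP : GP P) {p : ℝ × ℝ} (hp : p ∈ P) :
    ∑ y ∈ P.erase p, stp (fun q : ℝ × ℝ => p.1 < q.1) y = (rgt P p : ℤ) - lft P p := by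
  have e1 : (rgt P p : ℤ) = ∑ q ∈ P.erase p, if p.1 < q.1 then 1 else 0 := by
    unfold rgt
    rw [Finset.card_filter, ← Finset.add_sum_erase P _ hp]
    simp
  have e2 : (lft P p : ℤ) = ∑ q ∈ P.erase p, if q.1 < p.1 then 1 else 0 := by
    unfold lft
    rw [Finset.card_filter, ← Finset.add_sum_erase P _ hp]
    simp
  rw [e1, e2, ← Finset.sum_sub_distrib]
  refine Finset.sum_congr rfl fun q hq => ?_
  rw [mem_erase] at hq
  unfold stp
  rcases lt_or_gt_of_ne (hP.ne1 hp hq.2 (Ne.symm hq.1)) with h | h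
  · rw [if_pos h, if_pos h, if_neg (not_lt.mpr h.le)]; norm_num
  · rw [if_neg (not_lt.mpr h.le), if_neg (not_lt.mpr h.le), if_pos h]; norm_num

/-- the edge at the start of a concave chain has many points to its right -/
lemma start_rgt (hP : GP P) {f : Seg} (hf : KE P k f.1 f.2) (hno : ∀ e, ¬ Nxt P k e f) :
    k + 1 ≤ rgt P f.1 := by
  by_contra hcon
  have hp := hf.1
  have h1' := (ke_right hP hp).mp hf
  obtain ⟨r, hr⟩ : ∃ r : ℝ, ∀ y ∈ P.erase f.1, sl f.1 y < r := by
    obtain ⟨M, hM⟩ := ((P.erase f.1).image (sl f.1)).exists_le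
    exact ⟨M + 1, fun y hy => by
      have := hM _ (mem_image_of_mem _ hy)
      linarith⟩
  have hsum : (∑ y ∈ P.erase f.1, if sl f.1 y < r then stp (fun q : ℝ × ℝ => f.1.1 < q.1) y else 0)
      = (rgt P f.1 : ℤ) - lft P f.1 := by
    rw [← sum_stp hP hp]
    exact Finset.sum_congr rfl fun y hy => if_pos (hr y hy)
  obtain ⟨x, hx, hB, hw, h3, h4⟩ := walk_down (sl f.1) (fun q => f.1.1 < q.1)
    ((k : ℤ) - lft P f.1) (P.erase f.1) (hP.injOn hp) h1'.1 (hr _ h1'.1)
    (by rw [h1'.2.2]; unfold stp; rw [if_pos h1'.2.1])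
    (by rw [hsum]; omega)
  have hu : KE P k x f.1 := (ke_left hP hp).mpr ⟨hx, hB, hw⟩
  obtain ⟨w, hw1, -⟩ := exists_pred hP hf hu (by rw [sl_comm x f.1]; exact h3)
  exact hno _ hw1

open scoped Classical in
/-- the edges at the place `i` of their concave chain -/
noncomputable def lev (P : Finset (ℝ × ℝ)) (k : ℕ) : ℕ → Finset Seg
  | 0 => (kes P k).filter (fun f => ∀ e, ¬ Nxt P k e f)
  | i + 1 => (kes P k).filter (fun f => ∃ e ∈ lev P k i, Nxt P k e f)

lemma lev_zero (hP : GP P) : #(lev P k 0) ≤ #P - (k + 1) := by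
  classical
  refine le_trans ?_ (rgt_count hP k)
  refine card_le_card_of_injOn (fun e => e.1) ?_ ?_
  · intro f hf
    rw [mem_coe, lev, mem_filter, mem_kes] at hf
    rw [mem_coe, mem_filter]
    exact ⟨hf.1.1, start_rgt hP hf.1 hf.2⟩
  · have key : ∀ f g : Seg, KE P k f.1 f.2 → KE P k g.1 g.2 → f.1 = g.1 →
        (∀ e, ¬ Nxt P k e f) → ¬ ss f < ss g := by
      intro f g hf hg hfg hno hlt
      obtain ⟨u, hu, h3, -⟩ := altR hP hf (by rw [hfg]; exact hg) (by
        unfold ss at hlt
        rw [← hfg] at hlt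
        exact hlt)
      obtain ⟨w, hw1, -⟩ := exists_pred hP hf hu h3
      exact hno _ hw1
    intro f hf g hg hfg
    rw [mem_coe, lev, mem_filter, mem_kes] at hf hg
    dsimp only at hfg
    refine seg_ext hP hf.1.1 hf.1.2.1 hf.1.2.2.1 hg.1.2.1 hg.1.2.2.1 hfg ?_
    rcases lt_trichotomy (ss f) (ss g) with h | h | h
    · exact absurd h (key f g hf.1 hg.1 hfg hf.2)
    · exact h
    · exact absurd h (key g f hg.1 hf.1 hfg.symm hg.2)

lemma lev_succ (hP : GP P) (i : ℕ) : #(lev P k (i + 1)) ≤ #(lev P k i) := by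
  classical
  have hex : ∀ f : Seg, ∃ e : Seg, f ∈ lev P k (i + 1) → e ∈ lev P k i ∧ Nxt P k e f := by
    intro f
    by_cases hf : f ∈ lev P k (i + 1)
    · have h := hf
      rw [lev, mem_filter] at h
      obtain ⟨e, he, h2⟩ := h.2
      exact ⟨e, fun _ => ⟨he, h2⟩⟩
    · exact ⟨f, fun h => absurd h hf⟩
  choose g hg using hex
  refine card_le_card_of_injOn g (fun f hf => (hg f hf).1) ?_
  intro f hf f' hf' h
  have h1 := (hg f hf).2
  have h2 := (hg f' hf').2
  rw [h] at h1
  exact nxt_right_unique hP h1 h2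

lemma lev_le (hP : GP P) (i : ℕ) : #(lev P k i) ≤ #P - (k + 1) := by
  induction i with
  | zero => exact lev_zero hP
  | succ i ih => exact (lev_succ hP i).trans ih

/-- `c 0, ..., c m` is a concave path of `k`-edges -/
def Pth (P : Finset (ℝ × ℝ)) (k m : ℕ) (c : ℕ → ℝ × ℝ) : Prop :=
  (∀ i < m, KE P k (c i) (c (i + 1))) ∧
    ∀ i, i + 1 < m → sl (c (i + 1)) (c (i + 2)) < sl (c i) (c (i + 1))

lemma lev_or (j : ℕ) : ∀ f ∈ kes P k, (∃ i < j, f ∈ lev P k i) ∨
    ∃ c, Pth P k (j + 1) c ∧ c j = f.1 ∧ c (j + 1) = f.2 := by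
  classical
  induction j with
  | zero =>
    intro f hf
    right
    refine ⟨fun i => if i = 0 then f.1 else f.2, ⟨?_, ?_⟩, by simp, by simp⟩
    · intro i hi
      have : i = 0 := by omega
      subst this
      simpa using mem_kes.mp hf
    · intro i hi
      omega
  | succ j ih =>
    intro f hf
    by_cases hno : ∀ e, ¬ Nxt P k e f
    · left
      refine ⟨0, by omega, ?_⟩
      rw [lev, mem_filter]
      exact ⟨hf, hno⟩
    · push Not at hno
      obtain ⟨e, he⟩ := hno
      rcases ih e (mem_kes.mpr he.1) with ⟨i, hi, h⟩ | ⟨c, hc, h1, h2⟩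
      · left
        refine ⟨i + 1, by omega, ?_⟩
        rw [lev, mem_filter]
        exact ⟨hf, e, h, he⟩
      · right
        refine ⟨fun i => if i ≤ j + 1 then c i else f.2, ⟨?_, ?_⟩, ?_, ?_⟩
        · intro i hi
          by_cases hij : i + 1 ≤ j + 1
          · simp only [if_pos (show i ≤ j + 1 by omega), if_pos hij]
            exact hc.1 i (by omega)
          · have : i = j + 1 := by omega
            subst this
            simp only [if_pos le_rfl, if_neg hij]
            rw [h2, ← he.2.2.1]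
            exact he.2.1
        · intro i hi
          by_cases hij : i + 2 ≤ j + 1
          · simp only [if_pos (show i ≤ j + 1 by omega), if_pos (show i + 1 ≤ j + 1 by omega),
              if_pos hij]
            exact hc.2 i (by omega)
          · have : i = j := by omega
            subst this
            simp only [if_pos (show i ≤ i + 1 by omega), if_pos (show i + 1 ≤ i + 1 by omega),
              if_neg hij]
            rw [h1, h2]
            have := he.2.2.2.1
            unfold ss at this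
            rw [he.2.2.1] at this
            exact this
        · simp only [if_pos (show j + 1 ≤ j + 1 by omega)]
          rw [h2, he.2.2.1]
        · simp only [if_neg (show ¬ j + 1 + 1 ≤ j + 1 by omega)]

/-- if there is no concave path of `m + 1` edges then there are at most `m (|P| - k - 1)` edges -/
theorem chain_bound (hP : GP P) (m : ℕ) (h : ∀ c, ¬ Pth P k (m + 1) c) :
    #(kes P k) ≤ m * (#P - (k + 1)) := by
  classical
  have h1 : kes P k ⊆ (range m).biUnion (lev P k) := by
    intro f hf
    rcases lev_or m f hf with ⟨i, hi, h1⟩ | ⟨c, hc, -⟩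
    · exact mem_biUnion.mpr ⟨i, mem_range.mpr hi, h1⟩
    · exact absurd hc (h c)
  refine (card_le_card h1).trans (card_biUnion_le.trans ?_)
  refine (sum_le_sum fun i _ => lev_le hP i).trans ?_
  rw [sum_const, card_range, smul_eq_mul]

/-- a long concave path of `k`-edges -/
theorem long_path (hP : GP P) (hne : P.Nonempty) : ∃ m c, Pth P k m c ∧ c 0 ∈ P ∧
    #(kes P k) ≤ m * (#P - (k + 1)) := by
  classical
  by_cases hcon : ∀ m c, Pth P k m c → c 0 ∈ P → ∃ c', Pth P k (m + 1) c'
  · -- then there are arbitrarily long paths: impossible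
    exfalso
    obtain ⟨p, hp⟩ := hne
    have hall : ∀ m, ∃ c, Pth P k m c ∧ c 0 ∈ P := by
      intro m
      induction m with
      | zero => exact ⟨fun _ => p, ⟨fun i hi => absurd hi (by omega), fun i hi => absurd hi (by omega)⟩, hp⟩
      | succ m ih =>
        obtain ⟨c, hc, h0⟩ := ih
        obtain ⟨c', hc'⟩ := hcon m c hc h0
        exact ⟨c', hc', (hc'.1 0 (by omega)).1⟩
    obtain ⟨c, hc, -⟩ := hall (#P + 1)
    have hmono : ∀ i j, i < j → j ≤ #P + 1 → (c i).1 < (c j).1 := by
      intro i j hij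
      induction j, hij using Nat.le_induction with
      | base => intro hj; exact (hc.1 i (by omega)).2.2.1
      | succ j hij ih => intro hj; exact (ih (by omega)).trans (hc.1 j (by omega)).2.2.1
    have hinj : #((range (#P + 1)).image c) = #P + 1 := by
      rw [card_image_of_injOn, card_range]
      intro i hi j hj hij
      rw [mem_coe, mem_range] at hi hj
      by_contra hne
      rcases lt_or_gt_of_ne hne with h | h
      · have := hmono i j h (by omega)
        rw [hij] at this
        exact lt_irrefl _ this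
      · have := hmono j i h (by omega)
        rw [hij] at this
        exact lt_irrefl _ this
    have hsub : (range (#P + 1)).image c ⊆ P := by
      intro x hx
      obtain ⟨i, hi, rfl⟩ := mem_image.mp hx
      exact (hc.1 i (mem_range.mp hi)).1
    have := card_le_card hsub
    omega
  · push Not at hcon
    obtain ⟨m, c, hc, h0, h1⟩ := hcon
    exact ⟨m, c, hc, h0, chain_bound hP m h1⟩

end Pool.Agent.X130.CP
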