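import Pool.Agent.X130.CP.A
import Pool.Agent.Y429.HalvFew

/-!
# Concave and convex paths of `k`-edges, convex position
-/

set_option autoImplicit false

namespace Pool.Agent.X130.CP

open Finset Pool.Agent.W296.HL Pool.Agent.TH124.KE Pool.Agent.TH511.HLC

variable {P : Finset (ℝ × ℝ)} {k : ℕ}

/-- `c 0, ..., c m` is a convex path of `k`-edges -/
def Pth' (P : Finset (ℝ × ℝ)) (k m : ℕ) (c : ℕ → ℝ × ℝ) : Prop :=
  (∀ i < m, KE P k (c i) (c (i + 1))) ∧
    ∀ i, i + 1 < m → sl (c i) (c (i + 1)) < sl (c (i + 1)) (c (i + 2))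

lemma refl2_refl2 (p : ℝ × ℝ) : refl2 (refl2 p) = p := by
  unfold refl2; simp

lemma image_refl2_twice (P : Finset (ℝ × ℝ)) : (P.image refl2).image refl2 = P := by
  rw [image_image]
  have : refl2 ∘ refl2 = id := by funext p; exact refl2_refl2 p
  rw [this, image_id]

/-- a long convex path of `k`-edges -/
theorem long_path' (hP : GP P) (hne : P.Nonempty) (hk : k + 2 ≤ #P) : ∃ m c, Pth' P k m c ∧
    c 0 ∈ P ∧ #(kes P k) ≤ m * (k + 1) := by
  classical
  have hP' := gp_refl hP
  have hcard : #(P.image refl2) = #P := card_image_of_injective _ refl2_inj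
  obtain ⟨m, c, hc, h0, h1⟩ := long_path (k := #P - 2 - k) hP' (hne.image _)
  refine ⟨m, fun i => refl2 (c i), ⟨?_, ?_⟩, ?_, ?_⟩
  · intro i hi
    have h := ke_refl hP' (hc.1 i hi)
    rw [image_refl2_twice, hcard] at h
    have e : #P - 2 - (#P - 2 - k) = k := by omega
    rw [e] at h
    exact h
  · intro i hi
    rw [sl_refl, sl_refl]
    exact neg_lt_neg (hc.2 i hi)
  · obtain ⟨p, hp, h⟩ := mem_image.mp h0
    show refl2 (c 0) ∈ P
    rw [← h, refl2_refl2]
    exact hp
  · have h2 : #(kes P k) ≤ #(kes (P.image refl2) (#P - 2 - k)) := by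
      refine card_le_card_of_injOn (fun e : Seg => ((refl2 e.1, refl2 e.2) : Seg)) ?_ ?_
      · intro e he
        rw [mem_coe, mem_kes] at he
        rw [mem_coe, mem_kes]
        exact ke_refl hP he
      · intro e _ f _ h
        simp only [Prod.mk.injEq] at h
        exact Prod.ext (refl2_inj h.1) (refl2_inj h.2)
    rw [hcard] at h1
    have e : #P - (#P - 2 - k + 1) = k + 1 := by omega
    rw [e] at h1
    exact h2.trans h1

lemma pth_mono {m : ℕ} {c : ℕ → ℝ × ℝ} (h : ∀ i < m, KE P k (c i) (c (i + 1))) :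
    ∀ i j, i < j → j ≤ m → (c i).1 < (c j).1 := by
  intro i j hij
  induction j, hij using Nat.le_induction with
  | base => intro hj; exact (h i (by omega)).2.2.1
  | succ j hij ih => intro hj; exact (ih (by omega)).trans (h j (by omega)).2.2.1

/-- slopes along a concave path -/
lemma pth_slope {m : ℕ} {c : ℕ → ℝ × ℝ}
    (h : ∀ i, i + 1 < m → sl (c (i + 1)) (c (i + 2)) < sl (c i) (c (i + 1))) :
    ∀ i j, i < j → j < m → sl (c j) (c (j + 1)) < sl (c i) (c (i + 1)) := by
  intro i j hij
  induction j, hij using Nat.le_induction with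
  | base => intro hj; exact h i hj
  | succ j hij ih => intro hj; exact (h j hj).trans (ih (by omega))

/-- every vertex of a concave path is the unique highest one in some direction -/
lemma pth_top {m : ℕ} {c : ℕ → ℝ × ℝ} (hc : Pth P k m c) {j : ℕ} (hj : j ≤ m) :
    ∃ σ : ℝ, ∀ i ≤ m, i ≠ j → hh σ (c i) < hh σ (c j) := by
  -- a slope between those of the neighbouring edges
  obtain ⟨σ, h1, h2⟩ : ∃ σ : ℝ, (∀ i, i + 1 ≤ j → σ < sl (c i) (c (i + 1))) ∧
      (∀ i, j ≤ i → i < m → sl (c i) (c (i + 1)) < σ) := by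
    by_cases hj0 : j = 0
    · subst hj0
      refine ⟨sl (c 0) (c 1) + 1, fun i hi => absurd hi (by omega), fun i _ hi => ?_⟩
      rcases Nat.eq_zero_or_pos i with h | h
      · subst h; norm_num
      · have := pth_slope hc.2 0 i h hi
        simp only [zero_add] at this
        linarith
    · by_cases hjm : j = m
      · subst hjm
        refine ⟨sl (c (j - 1)) (c (j - 1 + 1)) - 1, fun i hi => ?_, fun i h1 h2 => by omega⟩
        rcases (show i ≤ j - 1 by omega).lt_or_eq with h | h
        · have := pth_slope hc.2 i (j - 1) h (by omega)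
          linarith
        · rw [h]; linarith
      · have h3 := hc.2 (j - 1) (by omega)
        have e1 : j - 1 + 1 = j := by omega
        have e2 : j - 1 + 2 = j + 1 := by omega
        rw [e1, e2] at h3
        refine ⟨(sl (c j) (c (j + 1)) + sl (c (j - 1)) (c j)) / 2, fun i hi => ?_,
          fun i hi1 hi2 => ?_⟩
        · rcases (show i ≤ j - 1 by omega).lt_or_eq with h | h
          · have := pth_slope hc.2 i (j - 1) h (by omega)
            rw [e1] at this
            linarith
          · rw [h, e1]; linarith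
        · rcases hi1.lt_or_eq with h | h
          · have := pth_slope hc.2 j i h hi2
            linarith
          · rw [← h]; linarith
  refine ⟨σ, ?_⟩
  have hup : ∀ i, i < j → hh σ (c i) < hh σ (c (i + 1)) := by
    intro i hi
    have hx := (hc.1 i (by omega)).2.2.1
    by_contra hcon
    push Not at hcon
    rcases hcon.lt_or_eq with h | h
    · have := (hh_lt_right hx σ).mp h
      linarith [h1 i (by omega)]
    · have := (hh_eq (ne_of_lt hx) σ).mp h
      linarith [h1 i (by omega)]
  have hdown : ∀ i, j ≤ i → i < m → hh σ (c (i + 1)) < hh σ (c i) := by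
    intro i hi1 hi2
    have hx := (hc.1 i hi2).2.2.1
    exact (hh_lt_right hx σ).mpr (h2 i hi1 hi2)
  have hup' : ∀ i l, i < l → l ≤ j → hh σ (c i) < hh σ (c l) := by
    intro i l hil
    induction l, hil using Nat.le_induction with
    | base => intro hl; exact hup i (by omega)
    | succ l hil ih => intro hl; exact (ih (by omega)).trans (hup l (by omega))
  have hdown' : ∀ l, j < l → l ≤ m → hh σ (c l) < hh σ (c j) := by
    intro l hjl
    induction l, hjl using Nat.le_induction with
    | base => intro hl; exact hdown j le_rfl (by omega)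
    | succ l hjl ih => intro hl; exact (hdown l (by omega) (by omega)).trans (ih (by omega))
  intro i hi hij
  rcases lt_or_gt_of_ne hij with h | h
  · exact hup' i j h le_rfl
  · exact hdown' i h hi

/-- `hh σ` after a shear, as a linear map -/
def fn (ε σ : ℝ) : (ℝ × ℝ) →ₗ[ℝ] ℝ where
  toFun x := hh σ (Y429.HalvFew.shr ε x)
  map_add' x y := by
    unfold hh Y429.HalvFew.shr
    simp only [Prod.fst_add, Prod.snd_add]
    ring
  map_smul' a x := by
    unfold hh Y429.HalvFew.shr
    simp only [Prod.smul_fst, Prod.smul_snd, smul_eq_mul, RingHom.id_apply]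
    ring

lemma fn_apply (ε σ : ℝ) (x : ℝ × ℝ) : fn ε σ x = hh σ (Y429.HalvFew.shr ε x) := rfl

/-- points each of which is the unique extreme one for a linear functional -/
lemma convexPosition_of {m : ℕ} {d : ℕ → ℝ × ℝ}
    (h : ∀ j ≤ m, ∃ f : (ℝ × ℝ) →ₗ[ℝ] ℝ, ∀ i ≤ m, i ≠ j → f (d i) < f (d j)) :
    ConvexPosition ((range (m + 1)).image d) := by
  intro p hp
  obtain ⟨j, hj, rfl⟩ := mem_image.mp hp
  rw [mem_range] at hj
  obtain ⟨f, hf⟩ := h j (by omega)
  intro hcon
  have hsub : (((range (m + 1)).image d : Finset (ℝ × ℝ)) : Set (ℝ × ℝ)) \ {d j} ⊆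
      {x | f x < f (d j)} := by
    rintro x ⟨hx1, hx2⟩
    obtain ⟨i, hi, rfl⟩ := mem_image.mp (mem_coe.mp hx1)
    rw [mem_range] at hi
    refine hf i (by omega) ?_
    rintro rfl
    exact hx2 rfl
  have hconv : Convex ℝ {x : ℝ × ℝ | f x < f (d j)} := convex_halfSpace_lt f.isLinear _
  have h9 : f (d j) < f (d j) := convexHull_min hsub hconv hcon
  exact lt_irrefl _ h9

/-- the points of a path with distinct abscissae are distinct -/
lemma card_path {m : ℕ} {d : ℕ → ℝ × ℝ} {g : ℝ × ℝ → ℝ}
    (h : ∀ i j, i < j → j ≤ m → g (d i) < g (d j)) : #((range (m + 1)).image d) = m + 1 := by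
  rw [card_image_of_injOn, card_range]
  intro i hi j hj hij
  rw [mem_coe, mem_range] at hi hj
  by_contra hne
  rcases lt_or_gt_of_ne hne with h1 | h1
  · have := h i j h1 (by omega)
    rw [hij] at this
    exact lt_irrefl _ this
  · have := h j i h1 (by omega)
    rw [hij] at this
    exact lt_irrefl _ this

/-- convex position of a concave path, before the shear -/
lemma pth_convexPosition {m : ℕ} {c : ℕ → ℝ × ℝ} (hc : Pth P k m c) (ε : ℝ) {d : ℕ → ℝ × ℝ}
    (hd : ∀ i ≤ m, Y429.HalvFew.shr ε (d i) = c i) :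
    ConvexPosition ((range (m + 1)).image d) := by
  apply convexPosition_of
  intro j hj
  obtain ⟨σ, hσ⟩ := pth_top hc hj
  refine ⟨fn ε σ, fun i hi hij => ?_⟩
  rw [fn_apply, fn_apply, hd i hi, hd j hj]
  exact hσ i hi hij

/-- convex position of a convex path, before the shear -/
lemma pth_convexPosition' (hP : GP P) {m : ℕ} {c : ℕ → ℝ × ℝ} (hc : Pth' P k m c) (ε : ℝ)
    {d : ℕ → ℝ × ℝ} (hd : ∀ i ≤ m, Y429.HalvFew.shr ε (d i) = c i) :
    ConvexPosition ((range (m + 1)).image d) := by
  have hc2 : Pth (P.image refl2) (#P - 2 - k) m (fun i => refl2 (c i)) := by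
    refine ⟨fun i hi => ke_refl hP (hc.1 i hi), fun i hi => ?_⟩
    rw [sl_refl, sl_refl]
    exact neg_lt_neg (hc.2 i hi)
  apply convexPosition_of
  intro j hj
  obtain ⟨σ, hσ⟩ := pth_top hc2 hj
  refine ⟨-fn ε (-σ), fun i hi hij => ?_⟩
  have h := hσ i hi hij
  rw [LinearMap.neg_apply, LinearMap.neg_apply, fn_apply, fn_apply, hd i hi, hd j hj]
  unfold hh refl2 at h
  unfold hh
  dsimp only at h
  linarith

end Pool.Agent.X130.CP
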