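import Pool.Agent.X130.CP.B

/-!
# Paths of bisectors and the number of bisectors
-/

set_option autoImplicit false

namespace Pool.Agent.X130.CP

open Finset Pool.Agent.TH124.KE Pool.Agent.TH511.HLC Pool.Agent.Y429.HalvFew
open Pool.Agent.W296.HL hiding sl

variable {P : Finset (ℝ × ℝ)}

/-- `d 0, ..., d m` are points of `P` with increasing `x + ε y` such that the line through any two
consecutive ones is a bisector of `P`, and all together are in convex position -/
structure BisectorPath (P : Finset (ℝ × ℝ)) (ε : ℝ) (m : ℕ) (d : ℕ → ℝ × ℝ) : Prop where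
  mem : ∀ i ≤ m, d i ∈ P
  mono : ∀ i < m, (d i).1 + ε * (d i).2 < (d (i + 1)).1 + ε * (d (i + 1)).2
  bisector : ∀ i < m, ∃ L, IsBisector P L ∧ d i ∈ L ∧ d (i + 1) ∈ L
  convex : ConvexPosition ((range (m + 1)).image d)
  card : #((range (m + 1)).image d) = m + 1

/-- the path `d 0, ..., d m` turns always to the right (`s = 1`) or always to the left (`s = -1`) -/
def Turns (s : ℝ) (m : ℕ) (d : ℕ → ℝ × ℝ) : Prop :=
  ∀ i, i + 1 < m → s * (((d (i + 1)).1 - (d i).1) * ((d (i + 2)).2 - (d i).2) -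
    ((d (i + 1)).2 - (d i).2) * ((d (i + 2)).1 - (d i).1)) < 0

/-- the inverse of the shear -/
def unshr (ε : ℝ) (x : ℝ × ℝ) : ℝ × ℝ := (x.1 - ε * x.2, x.2)

lemma shr_unshr (ε : ℝ) (x : ℝ × ℝ) : shr ε (unshr ε x) = x := by
  unfold shr unshr; ext <;> simp

lemma above_iff {p q : ℝ × ℝ} (h : p.1 < q.1) (r : ℝ × ℝ) :
    hh (sl p q) p < hh (sl p q) r ↔ 0 < cr p q r := by
  have h0 : 0 < q.1 - p.1 := by linarith
  have h1 : sl p q * (q.1 - p.1) = q.2 - p.2 := by
    unfold sl; field_simp
  have h2 : (q.1 - p.1) * (hh (sl p q) r - hh (sl p q) p) = cr p q r := by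
    unfold hh cr
    linear_combination (-(r.1 - p.1)) * h1
  constructor
  · intro h3
    rw [← h2]
    exact mul_pos h0 (by linarith)
  · intro h3
    rw [← h2] at h3
    have := (mul_pos_iff_of_pos_left h0).mp h3
    linarith

open scoped Classical in
lemma bis_of_ke {ε : ℝ} (hP : GP (P.image (shr ε))) (hE : Even #P) {p q : ℝ × ℝ}
    (h : KE (P.image (shr ε)) (#P / 2 - 1) (shr ε p) (shr ε q)) :
    p ∈ P ∧ q ∈ P ∧ ∃ L, IsBisector P L ∧ p ∈ L ∧ q ∈ L := by
  have hp : p ∈ P := by
    obtain ⟨p', hp', h'⟩ := mem_image.mp h.1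
    rwa [← shr_inj ε h']
  have hq : q ∈ P := by
    obtain ⟨q', hq', h'⟩ := mem_image.mp h.2.1
    rwa [← shr_inj ε h']
  have hx := h.2.2.1
  have hpq : p ≠ q := by rintro rfl; exact lt_irrefl _ hx
  have hcard : #(P.image (shr ε)) = #P := card_image_of_injective _ (shr_inj ε)
  have h1 : bel (P.image (shr ε)) (sl (shr ε p) (shr ε q)) (shr ε p) = #{x ∈ P | cr p q x < 0} := by
    unfold bel
    rw [Finset.filter_image, Finset.card_image_of_injective _ (shr_inj ε)]
    congr 1
    ext x
    rw [mem_filter, mem_filter, below_iff hx, cr_shr]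
  have h2 : abv (P.image (shr ε)) (sl (shr ε p) (shr ε q)) (shr ε p) = #{x ∈ P | 0 < cr p q x} := by
    unfold abv
    rw [Finset.filter_image, Finset.card_image_of_injective _ (shr_inj ε)]
    congr 1
    ext x
    rw [mem_filter, mem_filter, above_iff hx, cr_shr]
  have h3 := bel_abv hP h.1 h.2.1 hx
  have h4 := h.2.2.2
  rw [h1] at h3 h4
  rw [h2, hcard] at h3
  obtain ⟨n, hn⟩ := hE
  have h5 : #{x ∈ P | 0 < cr p q x} = #P / 2 - 1 := by omega
  refine ⟨hp, hq, Line (-(q.2 - p.2)) (q.1 - p.1) (-(q.2 - p.2) * p.1 + (q.1 - p.1) * p.2), ?_, ?_, ?_⟩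
  · refine ⟨_, _, _, ?_, rfl, ⟨p, hp, q, hq, hpq, ?_, ?_⟩, ?_, ?_⟩
    · by_contra hcon
      push Not at hcon
      apply hpq
      exact Prod.ext (by linarith [hcon.2]) (by linarith [hcon.1])
    · simp only [Line, Set.mem_ofPred_eq]
    · simp only [Line, Set.mem_ofPred_eq]; ring
    · rw [← h4]
      congr 1
      ext x
      rw [mem_filter, mem_filter]
      unfold cr
      constructor
      · rintro ⟨a, b⟩; exact ⟨a, by linarith⟩
      · rintro ⟨a, b⟩; exact ⟨a, by linarith⟩
    · rw [← h5]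
      congr 1
      ext x
      rw [mem_filter, mem_filter]
      unfold cr
      constructor
      · rintro ⟨a, b⟩; exact ⟨a, by linarith⟩
      · rintro ⟨a, b⟩; exact ⟨a, by linarith⟩
  · simp only [Line, Set.mem_ofPred_eq]
  · simp only [Line, Set.mem_ofPred_eq]; ring

/-- the sign of a turn -/
lemma turn_neg {a b c : ℝ × ℝ} (h1 : a.1 < b.1) (h2 : b.1 < c.1) (h : sl b c < sl a b) :
    cr a b c < 0 := by
  rw [← below_iff h1, ← hh_sl (ne_of_lt h1)]
  exact (hh_lt_right h2 _).mpr h

lemma turn_pos {a b c : ℝ × ℝ} (h1 : a.1 < b.1) (h2 : b.1 < c.1) (h : sl a b < sl b c) :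
    0 < cr a b c := by
  rw [← above_iff h1, ← hh_sl (ne_of_lt h1)]
  by_contra hcon
  push Not at hcon
  rcases hcon.lt_or_eq with h3 | h3
  · have := (hh_lt_right h2 _).mp h3
    linarith
  · have := (hh_eq (ne_of_lt h2) _).mp h3
    linarith

/-- **Paths of bisectors.** -/
theorem paths (hP : Gen P) (hE : Even #P) (hne : P.Nonempty) {ε : ℝ}
    (hε : ∀ x ∈ P, ∀ y ∈ P, x.1 + ε * x.2 = y.1 + ε * y.2 → x = y) (s : ℝ)
    (hs : s = 1 ∨ s = -1) :
    ∃ m d, BisectorPath P ε m d ∧ Turns s m d ∧ 2 * {L | IsBisector P L}.ncard ≤ m * #P := by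
  classical
  have hG := gp_shear hP (ε := ε) hε
  have hb := bis_le (P := P) (ε := ε) hε
  have hcard : #(P.image (shr ε)) = #P := card_image_of_injective _ (shr_inj ε)
  have hn : 2 ≤ #P := by
    obtain ⟨n, hn⟩ := hE
    have := hne.card_pos
    omega
  have build : ∀ (m : ℕ) (c : ℕ → ℝ × ℝ), c 0 ∈ P.image (shr ε) →
      (∀ i < m, KE (P.image (shr ε)) (#P / 2 - 1) (c i) (c (i + 1))) →
      ConvexPosition ((range (m + 1)).image (fun i => unshr ε (c i))) →
      BisectorPath P ε m (fun i => unshr ε (c i)) := by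
    intro m c h0 hc hconv
    have hs1 : ∀ i, shr ε (unshr ε (c i)) = c i := fun i => shr_unshr ε (c i)
    have hmem : ∀ i ≤ m, unshr ε (c i) ∈ P := by
      intro i hi
      have : c i ∈ P.image (shr ε) := by
        rcases Nat.eq_zero_or_pos i with h | h
        · rw [h]; exact h0
        · have := (hc (i - 1) (by omega)).2.1
          rwa [show i - 1 + 1 = i by omega] at this
      obtain ⟨p, hp, h⟩ := mem_image.mp this
      have h2 : unshr ε (c i) = p := shr_inj ε ((hs1 i).trans h.symm)
      rw [h2]; exact hp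
    have hmono : ∀ i < m, (unshr ε (c i)).1 + ε * (unshr ε (c i)).2 <
        (unshr ε (c (i + 1))).1 + ε * (unshr ε (c (i + 1))).2 := by
      intro i hi
      have := (hc i hi).2.2.1
      unfold unshr
      dsimp only
      linarith
    refine ⟨hmem, hmono, ?_, hconv, ?_⟩
    · intro i hi
      have h := hc i hi
      rw [← hs1 i, ← hs1 (i + 1)] at h
      exact (bis_of_ke hG hE h).2.2
    · apply card_path (g := fun x : ℝ × ℝ => x.1 + ε * x.2)
      intro i j hij
      induction j, hij using Nat.le_induction with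
      | base => intro hj; exact hmono i (by omega)
      | succ j hij ih => intro hj; exact (ih (by omega)).trans (hmono j (by omega))
  obtain ⟨n, hn2⟩ := id hE
  rcases hs with rfl | rfl
  · obtain ⟨m, c, hc, h0, h1⟩ := long_path (k := #P / 2 - 1) hG (hne.image _)
    refine ⟨m, _, build m c h0 hc.1 (pth_convexPosition hc ε fun i _ => shr_unshr ε (c i)), ?_, ?_⟩
    · intro i hi
      rw [one_mul]
      have h2 := turn_neg (hc.1 i (by omega)).2.2.1 (hc.1 (i + 1) (by omega)).2.2.1 (hc.2 i hi)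
      rw [← shr_unshr ε (c i), ← shr_unshr ε (c (i + 1)), ← shr_unshr ε (c (i + 2)), cr_shr] at h2
      exact h2
    · rw [hcard] at h1
      have e : #P - (#P / 2 - 1 + 1) = n := by omega
      rw [e] at h1
      calc 2 * {L | IsBisector P L}.ncard ≤ 2 * (m * n) := by omega
        _ = m * (n + n) := by ring
        _ = m * #P := by rw [← hn2]
  · obtain ⟨m, c, hc, h0, h1⟩ := long_path' (k := #P / 2 - 1) hG (hne.image _)
      (by rw [hcard]; omega)
    refine ⟨m, _, build m c h0 hc.1 (pth_convexPosition' hG hc ε fun i _ => shr_unshr ε (c i)),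
      ?_, ?_⟩
    · intro i hi
      have h2 := turn_pos (hc.1 i (by omega)).2.2.1 (hc.1 (i + 1) (by omega)).2.2.1 (hc.2 i hi)
      rw [← shr_unshr ε (c i), ← shr_unshr ε (c (i + 1)), ← shr_unshr ε (c (i + 2)), cr_shr] at h2
      unfold cr at h2
      linarith
    · have e : #P / 2 - 1 + 1 = n := by omega
      rw [e] at h1
      calc 2 * {L | IsBisector P L}.ncard ≤ 2 * (m * n) := by omega
        _ = m * (n + n) := by ring
        _ = m * #P := by rw [← hn2]

/-- **The number of bisectors and the largest convex polygon.** -/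
theorem convex_bound (hP : Gen P) (hE : Even #P) {t : ℕ}
    (ht : ∀ A ⊆ P, ConvexPosition A → #A ≤ t) :
    2 * {L | IsBisector P L}.ncard ≤ (t - 1) * #P := by
  classical
  rcases P.eq_empty_or_nonempty with h | hne
  · subst h
    have : {L | IsBisector (∅ : Finset (ℝ × ℝ)) L} = ∅ := by
      ext L
      simp only [Set.mem_ofPred_eq, Set.mem_empty_iff_false, iff_false]
      rintro ⟨a, b, c, -, -, ⟨p, hp, -⟩, -⟩
      exact absurd hp (notMem_empty p)
    rw [this]
    simp
  · obtain ⟨ε, hε⟩ := exists_shear P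
    obtain ⟨m, d, h1, -, h3⟩ := paths hP hE hne (ε := ε) hε 1 (Or.inl rfl)
    have h4 : m + 1 ≤ t := by
      rw [← h1.card]
      refine ht _ ?_ h1.convex
      intro x hx
      obtain ⟨i, hi, rfl⟩ := mem_image.mp hx
      exact h1.mem i (by rw [mem_range] at hi; omega)
    exact h3.trans (Nat.mul_le_mul_right _ (by omega))

open scoped Classical in
/-- the pairs of points of `P`, ordered by the abscissa, with exactly `k` points below their line -/
noncomputable def kEdges (P : Finset (ℝ × ℝ)) (k : ℕ) : Finset ((ℝ × ℝ) × (ℝ × ℝ)) :=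
  (P ×ˢ P).filter (fun e => e.1.1 < e.2.1 ∧ #{r ∈ P | cr e.1 e.2 r < 0} = k)

/-- **The number of `k`-edges and the largest convex polygon.** -/
theorem kEdges_bound (hP : Gen P) (hx : ∀ p ∈ P, ∀ q ∈ P, p.1 = q.1 → p = q) (k : ℕ) {t : ℕ}
    (ht : ∀ A ⊆ P, ConvexPosition A → #A ≤ t) :
    #(kEdges P k) ≤ (t - 1) * min (k + 1) (#P - 1 - k) := by
  classical
  have hG : GP P := by
    have h := gp_shear hP (ε := 0) (fun x hx' y hy' h => by
      unfold shr at h
      simp only [zero_mul, add_zero] at h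
      exact hx x hx' y hy' h)
    have e : P.image (shr 0) = P := by
      have : shr 0 = id := by
        funext x
        unfold shr
        simp
      rw [this, image_id]
    rwa [e] at h
  have hkes : kEdges P k ⊆ kes P k := by
    intro e he
    unfold kEdges at he
    rw [mem_filter, mem_product] at he
    rw [mem_kes]
    refine ⟨he.1.1, he.1.2, he.2.1, ?_⟩
    rw [← he.2.2]
    unfold bel
    congr 1
    ext x
    rw [mem_filter, mem_filter, below_iff he.2.1]
  rcases (kEdges P k).eq_empty_or_nonempty with h0 | ⟨e, he⟩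
  · rw [h0]; simp
  have he' := mem_kes.mp (hkes he)
  have hne : P.Nonempty := ⟨_, he'.1⟩
  have hk : k + 2 ≤ #P := by
    have h1 := bel_abv hG he'.1 he'.2.1 he'.2.2.1
    have h2 := he'.2.2.2
    omega
  have hm : ∀ (m : ℕ) (c : ℕ → ℝ × ℝ), c 0 ∈ P → (∀ i < m, KE P k (c i) (c (i + 1))) →
      ConvexPosition ((range (m + 1)).image c) → m ≤ t - 1 := by
    intro m c h0 hc hconv
    have h1 := card_path (g := fun x : ℝ × ℝ => x.1) (pth_mono hc)
    have h2 := ht _ (by
      intro x hx
      obtain ⟨i, hi, rfl⟩ := mem_image.mp hx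
      rw [mem_range] at hi
      rcases Nat.eq_zero_or_pos i with h | h
      · rw [h]; exact h0
      · have := (hc (i - 1) (by omega)).2.1
        rwa [show i - 1 + 1 = i by omega] at this) hconv
    omega
  have hsh : ∀ x : ℝ × ℝ, shr 0 x = x := by intro x; unfold shr; simp
  refine (card_le_card hkes).trans ?_
  rcases min_choice (k + 1) (#P - 1 - k) with h | h
  · rw [h]
    obtain ⟨m, c, hc, h1, h2⟩ := long_path' hG hne hk
    exact h2.trans (Nat.mul_le_mul_right _ (hm m c h1 hc.1
      (pth_convexPosition' hG hc 0 fun i _ => hsh (c i))))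
  · rw [h]
    obtain ⟨m, c, hc, h1, h2⟩ := long_path (k := k) hG hne
    rw [show #P - (k + 1) = #P - 1 - k by omega] at h2
    exact h2.trans (Nat.mul_le_mul_right _ (hm m c h1 hc.1
      (pth_convexPosition hc 0 fun i _ => hsh (c i))))

end Pool.Agent.X130.CP
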